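import Mathlib
import Pool.Agent.Q47.TA.Surf

/-!
# A variety of type A with a stable point

Over every field `K` of characteristic zero there is an affine surface `Y = Spec A` of type A
(the modified Derksen invariant of `Y × 𝔸¹` is everything) for which the ideal generated by the
images of all locally nilpotent derivations is proper and which has an `SAut(Y)`-stable point.
-/

open Polynomial

namespace Pool.Agent.Results.MP_37b72a_ag.TypeAStable

universe u

/-- locally nilpotent derivations -/
def IsLND {K A : Type u} [Field K] [CommRing A] [Algebra K A] (D : Derivation K A A) : Prop :=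
  ∀ a : A, ∃ n : ℕ, (⇑D)^[n] a = 0

/-- the modified Derksen invariant: the subalgebra generated by the kernels of the locally
nilpotent derivations with a slice -/
def HDStar (K A : Type u) [Field K] [CommRing A] [Algebra K A] : Subalgebra K A :=
  Algebra.adjoin K {f : A | ∃ D : Derivation K A A, IsLND D ∧ (∃ s : A, D s = 1) ∧ D f = 0}

/-- `Spec A` is of type A -/
def IsTypeA (K A : Type u) [Field K] [CommRing A] [Algebra K A] : Prop :=
  HDStar K A[X] = ⊤

/-- the ideal `I` generated by the images of all locally nilpotent derivations -/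
def imageIdeal (K A : Type u) [Field K] [CommRing A] [Algebra K A] : Ideal A :=
  Ideal.span {g : A | ∃ D : Derivation K A A, IsLND D ∧ ∃ f : A, D f = g}

/-- `g = exp D` -/
def IsExp {K A : Type u} [Field K] [CommRing A] [Algebra K A] (D : Derivation K A A)
    (g : A ≃ₐ[K] A) : Prop :=
  ∀ f : A, ∃ N : ℕ, (⇑D)^[N] f = 0 ∧
    g f = ∑ n ∈ Finset.range N, ((n.factorial : K)⁻¹) • (⇑D)^[n] f

/-- the group generated by the exponentials of all locally nilpotent derivations -/
def SAut (K A : Type u) [Field K] [CommRing A] [Algebra K A] : Subgroup (A ≃ₐ[K] A) :=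
  Subgroup.closure {g | ∃ D : Derivation K A A, IsLND D ∧ IsExp D g}

/-- the `K`-point `χ` of `Spec A` is fixed by `SAut` -/
def IsStable {K A : Type u} [Field K] [CommRing A] [Algebra K A] (χ : A →ₐ[K] K) : Prop :=
  ∀ g ∈ SAut K A, ∀ f : A, χ (g f) = χ f

lemma stable_of {K A : Type u} [Field K] [CommRing A] [Algebra K A] (χ : A →ₐ[K] K)
    (h : ∀ D : Derivation K A A, IsLND D → ∀ f, χ (D f) = 0) : IsStable χ := by
  intro g hg
  refine Subgroup.closure_induction (p := fun g _ => ∀ f : A, χ (g f) = χ f) ?_ ?_ ?_ ?_ hg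
  · rintro g ⟨D, hD, hexp⟩ f
    obtain ⟨N, hN, hg⟩ := hexp f
    rw [hg, map_sum]
    rcases N with _ | N
    · rw [Function.iterate_zero, id_eq] at hN
      rw [hN, Finset.range_zero, Finset.sum_empty, map_zero]
    · rw [Finset.sum_range_succ']
      have : ∑ n ∈ Finset.range N, χ ((((n + 1).factorial : K)⁻¹) • (⇑D)^[n + 1] f) = 0 := by
        apply Finset.sum_eq_zero
        intro n _
        rw [map_smul, Function.iterate_succ_apply', h D hD, smul_zero]
      rw [this, zero_add, Function.iterate_zero, id_eq, Nat.factorial_zero, Nat.cast_one,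
        inv_one, one_smul]
  · intro f
    rfl
  · intro g g' _ _ h1 h2 f
    rw [AlgEquiv.mul_apply, h1, h2]
  · intro g _ h1 f
    have := h1 (g⁻¹ f)
    rw [← this]
    congr 1
    exact AlgEquiv.apply_symm_apply g f

/-- A surface of type A with `I ≠ K[Y]` and with an `SAut`-stable point. -/
theorem result (K : Type u) [Field K] [CharZero K] :
    ∃ (A : Type u) (_ : CommRing A) (_ : Algebra K A),
      IsDomain A ∧ Algebra.FiniteType K A ∧ IsTypeA K A ∧ imageIdeal K A ≠ ⊤ ∧
      ∃ χ : A →ₐ[K] K, IsStable χ := by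
  refine ⟨Q47.TA.BB K (Q47.TA.τ K), inferInstance, inferInstance, inferInstance, inferInstance,
    Q47.TA.typeA, ?_, _, stable_of
      ((Pool.Agent.H868R3.ev (Pool.Agent.H868R3.evL (1 : Kˣ)) 0).comp
        (Q47.TA.BB K (Q47.TA.τ K)).val) Q47.TA.BB_vanish⟩
  intro htop
  have h1 : imageIdeal K (Q47.TA.BB K (Q47.TA.τ K)) ≤
      RingHom.ker ((Pool.Agent.H868R3.ev (Pool.Agent.H868R3.evL (1 : Kˣ)) 0).comp
        (Q47.TA.BB K (Q47.TA.τ K)).val) := by
    apply Ideal.span_le.2
    rintro g ⟨D, hD, f, rfl⟩
    exact Q47.TA.BB_vanish D hD f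
  rw [htop] at h1
  have h2 := h1 (Submodule.mem_top (x := 1))
  rw [RingHom.mem_ker, map_one] at h2
  exact one_ne_zero h2

end Pool.Agent.Results.MP_37b72a_ag.TypeAStable
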